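import Mathlib
import Pool.Agent.R177.Cell600b

/-!
# MP_6fbbc1_co: the 24-cell, the 120-cell and the 600-cell are not all-net
-/

set_option autoImplicit false

namespace Pool.Agent.Results.MP_6fbbc1_co.NotAllNet

open Pool.Agent.R177.Unf RealInnerProductSpace

/-- The `i`-th coordinate of `v` is `r` or `-r`. -/
def absEq (v : E) (i : Fin 4) (r : ℝ) : Prop := |v i| = r

/-- The 24 vectors `±e_i` and `(±1/2, ±1/2, ±1/2, ±1/2)`. -/
def V24 : Set E := {v | (∃ i, absEq v i 1 ∧ ∀ j, j ≠ i → absEq v j 0) ∨ ∀ i, absEq v i (1 / 2)}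

/-- The 120 vectors `±e_i`, `(±1/2, ±1/2, ±1/2, ±1/2)` and the even permutations of
`(±φ/2, ±1/2, ±1/(2φ), 0)`, where `φ` is the golden ratio. -/
def V120 : Set E := {v | v ∈ V24 ∨ ∃ σ : Equiv.Perm (Fin 4), Equiv.Perm.sign σ = 1 ∧
  absEq v (σ 0) (Real.goldenRatio / 2) ∧ absEq v (σ 1) (1 / 2) ∧
  absEq v (σ 2) (1 / (2 * Real.goldenRatio)) ∧ absEq v (σ 3) 0}

/-- The 24-cell. -/
def cell24 : Set E := convexHull ℝ V24

/-- The 600-cell. -/
def cell600 : Set E := convexHull ℝ V120

/-- The 120-cell, as the polar dual of the 600-cell. -/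
def cell120 : Set E := {x | ∀ v ∈ V120, ⟪v, x⟫ ≤ 1}

theorem V24_eq : V24 = Pool.Agent.R177.Cell24.V24 := by
  ext v
  simp only [V24, Pool.Agent.R177.Cell24.V24, absEq, abs_eq_zero, Set.mem_ofPred_eq]

theorem V120_eq : V120 = Pool.Agent.R177.Cell120.V600 := by
  ext v
  simp only [V120, V24, Pool.Agent.R177.Cell120.V600, absEq, abs_eq_zero, Set.mem_ofPred_eq,
    or_assoc]

/-- **None of the 24-cell, the 120-cell and the 600-cell is all-net.** For each of these three
regular polytopes there is a ridge unfolding (a spanning tree of the dual graph together with the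
development of the facets along it into a hyperplane) in which the relative interiors of the images
of two distinct facets intersect. -/
theorem result : ¬ AllNet cell24 ∧ ¬ AllNet cell120 ∧ ¬ AllNet cell600 := by
  refine ⟨?_, ?_, ?_⟩
  · rw [cell24, V24_eq]
    exact Pool.Agent.R177.Cell24.not_allNet_cell24
  · rw [cell120, V120_eq]
    exact Pool.Agent.R177.Cell120.not_allNet_cell120
  · rw [cell600, V120_eq]
    exact Pool.Agent.R177.Cell600.not_allNet_cell600

end Pool.Agent.Results.MP_6fbbc1_co.NotAllNet
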